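import Pool.Agent.H20R2.RC.FR
import Pool.Agent.H14R2.RC.Defs2

/-!
Project RC2, task WORDS: the lazy walk operator as an average over letters and its powers as
averages over words.
-/

namespace RC14
open scoped InnerProductSpace
open Finset

set_option linter.unusedSectionVars false

namespace WORDS

variable {G : Type*} [Group G]
variable {V : Type*} [NormedAddCommGroup V] [InnerProductSpace ℂ V]

lemma TL_apply (ρ : G →* (V ≃ₗᵢ[ℂ] V)) {k : ℕ} (y : Fin k → G) (v : V) :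
    TL ρ y v = (1 / 2 : ℂ) • (v + (1 / (2 * (k : ℂ))) • ∑ i, (ρ (y i) v + ρ (y i)⁻¹ v)) := by
  simp only [TL, Fintype.card_fin, LinearMap.smul_apply, LinearMap.add_apply,
    Module.End.one_apply, LinearMap.sum_apply, op_apply]

/-- relation with the Laplacian -/
lemma TL_Lap (ρ : G →* (V ≃ₗᵢ[ℂ] V)) {k : ℕ} (hk : 1 ≤ k) (y : Fin k → G) (v : V) :
    TL ρ y v = v - (1 / (4 * (k : ℂ))) • FR.Lap ρ y v := by
  have hk' : (k : ℂ) ≠ 0 := by
    have : k ≠ 0 := by omega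
    exact_mod_cast this
  rw [TL_apply, FR.Lap_apply]
  have e1 : ∑ i, ((2 : ℂ) • v - ρ (y i) v - ρ (y i)⁻¹ v) =
      (2 * (k : ℂ)) • v - ∑ i, (ρ (y i) v + ρ (y i)⁻¹ v) := by
    have : ∀ i, (2 : ℂ) • v - ρ (y i) v - ρ (y i)⁻¹ v =
        (2 : ℂ) • v - (ρ (y i) v + ρ (y i)⁻¹ v) := fun i => by abel
    rw [Finset.sum_congr rfl fun i _ => this i, Finset.sum_sub_distrib, Finset.sum_const,
      Finset.card_univ, Fintype.card_fin, mul_comm, mul_smul, Nat.cast_smul_eq_nsmul]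
  rw [e1, smul_sub, smul_smul, smul_add, smul_smul]
  have e2 : (1 / (4 * (k : ℂ))) * (2 * k) = 1 / 2 := by
    field_simp; norm_num
  have e3 : (1 / 2 : ℂ) * (1 / (2 * (k : ℂ))) = 1 / (4 * k) := by
    field_simp; norm_num
  rw [e2, e3, sub_sub_eq_add_sub, add_sub_right_comm]
  congr 1
  rw [eq_sub_iff_add_eq, ← add_smul]
  norm_num

/-- the operator of a letter -/
lemma sum_letters (ρ : G →* (V ≃ₗᵢ[ℂ] V)) {k : ℕ} (y : Fin k → G) :
    ∑ s : Fin k × Fin 4, op ρ (lt y s) = ∑ i, (op ρ (y i) + op ρ (y i)⁻¹ + 2 • 1) := by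
  rw [Fintype.sum_prod_type]
  refine Finset.sum_congr rfl fun i _ => ?_
  rw [Fin.sum_univ_four]
  have e0 : lt y (i, (0 : Fin 4)) = y i := by simp [lt]
  have e1 : lt y (i, (1 : Fin 4)) = (y i)⁻¹ := by simp [lt]
  have e2 : lt y (i, (2 : Fin 4)) = 1 := by simp [lt]
  have e3 : lt y (i, (3 : Fin 4)) = 1 := by simp [lt]
  rw [e0, e1, e2, e3, op_one, two_smul]
  abel

lemma TL_eq (ρ : G →* (V ≃ₗᵢ[ℂ] V)) {k : ℕ} (hk : 1 ≤ k) (y : Fin k → G) :
    TL ρ y = (1 / (4 * (k : ℂ))) • ∑ s : Fin k × Fin 4, op ρ (lt y s) := by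
  have hk' : (k : ℂ) ≠ 0 := by
    have : k ≠ 0 := by omega
    exact_mod_cast this
  rw [sum_letters, Finset.sum_add_distrib, Finset.sum_const, Finset.card_univ, Fintype.card_fin,
    smul_add, TL, Fintype.card_fin, smul_add, smul_smul]
  have e3 : (1 / 2 : ℂ) * (1 / (2 * (k : ℂ))) = 1 / (4 * k) := by
    field_simp; norm_num
  rw [e3, add_comm]
  congr 1
  rw [← Nat.cast_smul_eq_nsmul ℂ k, ← Nat.cast_smul_eq_nsmul ℂ 2, smul_smul, smul_smul]
  congr 1
  push_cast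
  field_simp; norm_num

end WORDS

section
variable {G : Type*} [Group G] [Fintype G]
variable {V : Type*} [NormedAddCommGroup V] [InnerProductSpace ℂ V] [FiniteDimensional ℂ V]

theorem TL_symm (ρ : G →* (V ≃ₗᵢ[ℂ] V)) {k : ℕ} (y : Fin k → G) : (TL ρ y).IsSymmetric := by
  intro v w
  rw [WORDS.TL_apply, WORDS.TL_apply, inner_smul_left, inner_smul_right, inner_add_left,
    inner_add_right, inner_smul_left, inner_smul_right, sum_inner, inner_sum]
  have h2 : (starRingEnd ℂ) (1 / 2 : ℂ) = 1 / 2 := by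
    rw [map_div₀, map_one, Complex.conj_ofNat]
  have h3 : (starRingEnd ℂ) (1 / (2 * (k : ℂ))) = 1 / (2 * (k : ℂ)) := by
    rw [map_div₀, map_one, map_mul, Complex.conj_ofNat, Complex.conj_natCast]
  rw [h2, h3]
  congr 3
  refine Finset.sum_congr rfl fun i _ => ?_
  rw [inner_add_left, inner_add_right, FR.inner_rho, FR.inner_rho, inv_inv, add_comm]

/-- `‖v‖² - ⟨TL v, v⟩ = En / (4k)` -/
theorem TL_energy (ρ : G →* (V ≃ₗᵢ[ℂ] V)) {k : ℕ} (hk : 1 ≤ k) (y : Fin k → G) (v : V) :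
    ‖v‖ ^ 2 - (⟪TL ρ y v, v⟫_ℂ).re = En ρ y v / (4 * k) := by
  rw [WORDS.TL_Lap ρ hk, FR.En_eq, inner_sub_left, inner_smul_left, Complex.sub_re]
  have h3 : (⟪v, v⟫_ℂ).re = ‖v‖ ^ 2 := by
    rw [inner_self_eq_norm_sq_to_K]
    norm_cast
  have h4 : (starRingEnd ℂ) (1 / (4 * (k : ℂ))) = ((1 / (4 * (k : ℝ)) : ℝ) : ℂ) := by
    rw [map_div₀, map_one, map_mul, Complex.conj_ofNat, Complex.conj_natCast]
    push_cast
    rfl
  rw [h3, h4, Complex.re_ofReal_mul]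
  ring

/-- powers of `TL` are averages over words -/
theorem TL_pow (ρ : G →* (V ≃ₗᵢ[ℂ] V)) {k : ℕ} (hk : 1 ≤ k) (y : Fin k → G) (L : ℕ) :
    TL ρ y ^ L = ((1 / (4 * (k : ℂ))) ^ L) • ∑ w : Fin L → Fin k × Fin 4, op ρ (wd y w) := by
  induction L with
  | zero => simp [wd, op_one]
  | succ L ih =>
    rw [pow_succ', ih, WORDS.TL_eq ρ hk, smul_mul_smul_comm, ← pow_succ']
    congr 1
    rw [Finset.sum_mul_sum, ← Fintype.sum_prod_type',
      ← (Fin.consEquiv (fun _ : Fin (L + 1) => Fin k × Fin 4)).sum_comp]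
    refine Finset.sum_congr rfl fun p _ => ?_
    rw [← op_mul]
    congr 1
    simp [Fin.consEquiv, wd, List.ofFn_succ]

end

end RC14
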