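import Pool.Agent.H20R2.RC.FR
import Pool.Agent.H14R2.RC.S.TRANS

namespace RC14
open scoped InnerProductSpace
open Finset

namespace FRLOW
variable {n : ℕ}

/-- a real function as an element of `FA n` -/
noncomputable def cf (f : Alt n → ℝ) : FA n := WithLp.toLp 2 fun g => (f g : ℂ)

lemma cf_apply (f : Alt n → ℝ) (g : Alt n) : cf f g = (f g : ℂ) := rfl

lemma norm_cf (f : Alt n → ℝ) : ‖cf f‖ ^ 2 = ∑ g, f g ^ 2 := by
  rw [EuclideanSpace.norm_sq_eq]
  refine Finset.sum_congr rfl fun g _ => ?_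
  rw [cf_apply, Complex.norm_real, Real.norm_eq_abs, sq_abs]

lemma En_cf {k : ℕ} (x : Fin k → Alt n) (f : Alt n → ℝ) :
    En (RR n) x (cf f) = ∑ i, ∑ g, (f (g * x i) - f g) ^ 2 := by
  rw [En]
  refine Finset.sum_congr rfl fun i _ => ?_
  rw [EuclideanSpace.norm_sq_eq]
  refine Finset.sum_congr rfl fun g _ => ?_
  rw [PiLp.sub_apply, RR_apply, cf_apply, cf_apply, ← Complex.ofReal_sub, Complex.norm_real,
    Real.norm_eq_abs, sq_abs]

lemma sum_mulRight {M : Type*} [AddCommMonoid M] (s : Alt n) (F : Alt n → M) :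
    ∑ g, F (g * s) = ∑ g, F g := Equiv.sum_comp (Equiv.mulRight s) F

lemma walk_id {k : ℕ} (hk : 1 ≤ k) (x : Fin k → Alt n) (f : Alt n → ℝ) :
    ∑ g, f g * walk x f g = ∑ g, f g ^ 2 - En (RR n) x (cf f) / (2 * k) := by
  have hk' : (0 : ℝ) < 2 * k := by positivity
  rw [En_cf, eq_sub_iff_add_eq, ← mul_left_inj' hk'.ne', add_mul, div_mul_cancel₀ _ hk'.ne']
  have h1 : (∑ g, f g * walk x f g) * (2 * k) =
      ∑ i, ∑ g, (f g * f (g * x i) + f g * f (g * (x i)⁻¹)) := by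
    rw [Finset.sum_mul, Finset.sum_comm]
    refine Finset.sum_congr rfl fun g _ => ?_
    rw [walk, mul_assoc, div_mul_cancel₀ _ hk'.ne', Finset.mul_sum]
    exact Finset.sum_congr rfl fun i _ => by ring
  rw [h1, ← Finset.sum_add_distrib]
  have h2 : ∀ i, ∑ g, (f g * f (g * x i) + f g * f (g * (x i)⁻¹)) +
      ∑ g, (f (g * x i) - f g) ^ 2 = 2 * ∑ g, f g ^ 2 := by
    intro i
    have e1 : ∑ g, f g * f (g * (x i)⁻¹) = ∑ g, f (g * x i) * f g := by
      rw [← sum_mulRight (x i)]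
      exact Finset.sum_congr rfl fun g _ => by simp
    have e2 : ∑ g, f (g * x i) ^ 2 = ∑ g, f g ^ 2 := sum_mulRight (x i) (fun g => f g ^ 2)
    rw [Finset.sum_add_distrib, e1]
    have e3 : ∑ g, (f (g * x i) - f g) ^ 2 =
        ∑ g, f (g * x i) ^ 2 - 2 * ∑ g, f (g * x i) * f g + ∑ g, f g ^ 2 := by
      rw [Finset.mul_sum, ← Finset.sum_sub_distrib, ← Finset.sum_add_distrib]
      exact Finset.sum_congr rfl fun g _ => by ring
    have e4 : ∑ g, f g * f (g * x i) = ∑ g, f (g * x i) * f g :=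
      Finset.sum_congr rfl fun g _ => by ring
    rw [e3, e2, e4]
    ring
  rw [Finset.sum_congr rfl fun i _ => h2 i]
  simp
  ring

/-- from the energy inequality to the walk -/
lemma walk_le {k : ℕ} (hk : 1 ≤ k) (x : Fin k → Alt n) (c : ℝ) (f : Alt n → ℝ)
    (h : c * ‖cf f‖ ^ 2 ≤ En (RR n) x (cf f)) :
    ∑ g, f g * walk x f g ≤ (1 - c / (2 * k)) * ∑ g, f g ^ 2 := by
  have hk' : (0 : ℝ) < 2 * k := by positivity
  rw [walk_id hk, ← norm_cf]
  have := div_le_div_of_nonneg_right h hk'.le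
  have e : (1 - c / (2 * k)) * ‖cf f‖ ^ 2 = ‖cf f‖ ^ 2 - c * ‖cf f‖ ^ 2 / (2 * k) := by
    field_simp
  rw [e]
  linarith

/-- mean zero functions -/
noncomputable def MZ (n : ℕ) : Submodule ℂ (FA n) where
  carrier := {F | ∑ g, F g = 0}
  zero_mem' := by simp
  add_mem' := by
    intro a b ha hb
    have ha' : ∑ g, a g = 0 := ha
    have hb' : ∑ g, b g = 0 := hb
    change ∑ g, (a + b) g = 0
    simp only [PiLp.add_apply]
    rw [Finset.sum_add_distrib, ha', hb', add_zero]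
  smul_mem' := by
    intro c a ha
    have ha' : ∑ g, a g = 0 := ha
    change ∑ g, (c • a) g = 0
    simp only [PiLp.smul_apply, smul_eq_mul]
    rw [← Finset.mul_sum, ha', mul_zero]

lemma mem_MZ {F : FA n} : F ∈ MZ n ↔ ∑ g, F g = 0 := Iff.rfl

lemma MZ_inv : Inv (RR n) (MZ n) := by
  intro s F hF
  rw [mem_MZ] at hF ⊢
  simp only [RR_apply]
  rw [sum_mulRight s (fun g => F g), hF]

/-- complex span of the low level functions -/
def lowC (n m : ℕ) : Submodule ℂ (FA n) :=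
  Submodule.span ℂ {F | ∃ K : Finset (Fin n), K.card ≤ m ∧
    ∀ h g : Alt n, (∀ a ∈ K, (h : Equiv.Perm (Fin n)) a = a) → F (h * g) = F g}

lemma lowC_inv (m : ℕ) : Inv (RR n) (lowC n m) := by
  intro s F hF
  refine Submodule.span_induction (p := fun F _ => RR n s F ∈ lowC n m) ?_ ?_ ?_ ?_ hF
  · rintro F ⟨K, hK, h⟩
    refine Submodule.subset_span ⟨K, hK, fun u g hu => ?_⟩
    rw [RR_apply, RR_apply, mul_assoc]
    exact h u (g * s) hu
  · simp
  · intro a b _ _ ha hb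
    rw [map_add]; exact Submodule.add_mem _ ha hb
  · intro c a _ ha
    rw [map_smul]; exact Submodule.smul_mem _ _ ha

lemma orth {m : ℕ} {f F : FA n} (hf : f ∈ HH m n) (K : Finset (Fin n)) (hK : K.card ≤ m)
    (h : ∀ u g : Alt n, (∀ a ∈ K, (u : Equiv.Perm (Fin n)) a = a) → F (u * g) = F g) :
    ⟪F, f⟫_ℂ = 0 := by
  classical
  set κ : Tup K.card n := (K.orderEmbOfFin rfl).toEmbedding with hκ
  have hκm : ∀ i, κ i ∈ K := fun i => K.orderEmbOfFin_mem rfl i
  have hκs : ∀ a ∈ K, ∃ i, κ i = a := by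
    intro a ha
    have : a ∈ Set.range (K.orderEmbOfFin rfl) := by
      rw [Finset.range_orderEmbOfFin]; exact ha
    exact this
  have hfib : ∀ g g' : Alt n, mv (g : Equiv.Perm (Fin n))⁻¹ κ = mv (g' : Equiv.Perm (Fin n))⁻¹ κ →
      F g = F g' := by
    intro g g' hgg
    have := h (g * g'⁻¹) g' (fun a ha => ?_)
    · rw [← this]; simp
    · obtain ⟨i, rfl⟩ := hκs a ha
      have h1 := DFunLike.congr_fun hgg i
      simp only [mv_apply] at h1
      change (g : Equiv.Perm (Fin n)) ((g' : Equiv.Perm (Fin n))⁻¹ (κ i)) = κ i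
      rw [← h1]; simp
  have hex : ∃ φ : Tup K.card n → ℂ, ∀ g : Alt n, F g = φ (mv (g : Equiv.Perm (Fin n))⁻¹ κ) := by
    refine ⟨fun a => if h : ∃ g : Alt n, mv (g : Equiv.Perm (Fin n))⁻¹ κ = a then F h.choose
      else 0, fun g => ?_⟩
    have hg : ∃ g' : Alt n, mv (g' : Equiv.Perm (Fin n))⁻¹ κ = mv (g : Equiv.Perm (Fin n))⁻¹ κ :=
      ⟨g, rfl⟩
    simp only [dif_pos hg]
    exact hfib _ _ hg.choose_spec.symm
  obtain ⟨φ, hφ⟩ := hex
  rw [PiLp.inner_apply]
  have e1 : ∀ g : Alt n, ⟪F g, f g⟫_ℂ = ∑ a : Tup K.card n, starRingEnd ℂ (φ a) *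
      (if mv (g : Equiv.Perm (Fin n))⁻¹ κ = a then f g else 0) := by
    intro g
    rw [Finset.sum_eq_single (mv (g : Equiv.Perm (Fin n))⁻¹ κ)]
    · rw [if_pos rfl, ← hφ]
      simp [mul_comm]
    · intro b _ hb
      rw [if_neg (Ne.symm hb), mul_zero]
    · simp
  rw [Finset.sum_congr rfl fun g _ => e1 g, Finset.sum_comm]
  refine Finset.sum_eq_zero fun a _ => ?_
  rw [← Finset.mul_sum]
  have h2 := congrArg (fun v : V K.card n => v a) (hf K.card hK κ)
  simp only [FR.marg_apply, PiLp.zero_apply] at h2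
  rw [h2, mul_zero]

lemma lowC_orth {m : ℕ} {f : FA n} (hf : f ∈ HH m n) {F : FA n} (hF : F ∈ lowC n m) :
    ⟪F, f⟫_ℂ = 0 := by
  refine Submodule.span_induction (p := fun F _ => ⟪F, f⟫_ℂ = 0) ?_ ?_ ?_ ?_ hF
  · rintro F ⟨K, hK, h⟩
    exact orth hf K hK h
  · simp
  · intro a b _ _ ha hb
    rw [inner_add_left, ha, hb, add_zero]
  · intro c a _ ha
    rw [inner_smul_left, ha, mul_zero]

lemma cf_mem {m : ℕ} {f : Alt n → ℝ} (hf : f ∈ lowLevel n m) : cf f ∈ lowC n m := by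
  refine Submodule.span_induction (p := fun f _ => cf f ∈ lowC n m) ?_ ?_ ?_ ?_ hf
  · rintro F ⟨K, hK, h⟩
    exact Submodule.subset_span ⟨K, hK, fun u g hu => by rw [cf_apply, cf_apply, h u g hu]⟩
  · have : cf (0 : Alt n → ℝ) = 0 := by ext g; simp [cf_apply]
    rw [this]; exact Submodule.zero_mem _
  · intro a b _ _ ha hb
    have : cf (a + b) = cf a + cf b := by ext g; simp [cf_apply]
    rw [this]; exact Submodule.add_mem _ ha hb
  · intro c a _ ha
    have : cf (c • a) = (c : ℂ) • cf a := by ext g; simp [cf_apply]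
    rw [this]; exact Submodule.smul_mem _ _ ha

end FRLOW

open FRLOW in
/-- consequence for low level functions -/
theorem FRLOW (n m k : ℕ) (hk : 1 ≤ k) (x : Fin k → Alt n) (c : ℝ)
    (h1 : ∀ j, 1 ≤ j → j ≤ m → ∀ f ∈ Lvl j n, c * ‖f‖ ^ 2 ≤ En (repA j n) x f) :
    ∀ f ∈ lowLevel n m, ∑ g, f g = 0 →
      ∑ g, f g * walk x f g ≤ (1 - c / (2 * k)) * ∑ g, f g ^ 2 := by
  intro f hf hs
  refine walk_le hk x c f ?_
  refine FR n m k x c (lowC n m ⊓ MZ n) ?_ ?_ h1 ?_ (cf f) ⟨cf_mem hf, ?_⟩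
  · intro s F hF
    exact ⟨lowC_inv m s F hF.1, MZ_inv s F hF.2⟩
  · intro F hF
    exact hF.2
  · intro F hF hH
    have : ⟪F, F⟫_ℂ = 0 := lowC_orth hH hF.1
    have hF0 : F = 0 := inner_self_eq_zero.mp this
    subst hF0
    simp [En]
  · change ∑ g, cf f g = 0
    simp only [cf_apply]
    rw [← Complex.ofReal_sum, hs, Complex.ofReal_zero]

open FRLOW in
/-- consequence for all functions -/
theorem FRALL (n m k : ℕ) (hk : 1 ≤ k) (x : Fin k → Alt n) (c : ℝ) (hc : 0 < c)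
    (h1 : ∀ j, 1 ≤ j → j ≤ m → ∀ f ∈ Lvl j n, c * ‖f‖ ^ 2 ≤ En (repA j n) x f)
    (h2 : ∀ f ∈ HH m n, c * ‖f‖ ^ 2 ≤ En (RR n) x f) :
    Expanding (c / (2 * k)) x := by
  classical
  have hk' : (0 : ℝ) < 2 * k := by positivity
  have main : ∀ f : Alt n → ℝ, ∑ g, f g = 0 →
      ∑ g, f g * walk x f g ≤ (1 - c / (2 * k)) * ∑ g, f g ^ 2 := by
    intro f hs
    refine walk_le hk x c f ?_
    refine FR n m k x c (MZ n) MZ_inv (fun F hF => hF) h1 (fun F _ hF => h2 F hF) (cf f) ?_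
    rw [mem_MZ]
    simp only [cf_apply]
    rw [← Complex.ofReal_sum, hs, Complex.ofReal_zero]
  refine ⟨?_, main⟩
  set H := Subgroup.closure (Set.range x) with hH
  by_contra hne
  set a : ℝ := (Fintype.card H : ℝ) / Fintype.card (Alt n) with ha
  have hcard : (0 : ℝ) < Fintype.card (Alt n) := by
    exact_mod_cast Fintype.card_pos
  set f : Alt n → ℝ := fun g => (if g ∈ H then 1 else 0) - a with hf
  have hs : ∑ g, f g = 0 := by
    simp only [hf, Finset.sum_sub_distrib, Finset.sum_const, Finset.card_univ, nsmul_eq_mul]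
    rw [ha, mul_div_cancel₀ _ hcard.ne', Finset.sum_boole, sub_eq_zero]
    norm_cast
    rw [Fintype.card_subtype]
  have hw : ∀ g, walk x f g = f g := by
    intro g
    have hx : ∀ i, x i ∈ H := fun i => Subgroup.subset_closure ⟨i, rfl⟩
    have e1 : ∀ i, f (g * x i) = f g := by
      intro i
      simp only [hf]
      rw [H.mul_mem_cancel_right (hx i)]
    have e2 : ∀ i, f (g * (x i)⁻¹) = f g := by
      intro i
      simp only [hf]
      rw [H.mul_mem_cancel_right (H.inv_mem (hx i))]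
    rw [walk]
    simp only [e1, e2, Finset.sum_const, Finset.card_univ, Fintype.card_fin, nsmul_eq_mul]
    field_simp
    ring
  have h3 := main f hs
  have h4 : ∑ g, f g * walk x f g = ∑ g, f g ^ 2 :=
    Finset.sum_congr rfl fun g _ => by rw [hw g]; ring
  rw [h4] at h3
  have h5 : 0 < c / (2 * k) := by positivity
  have h6 : ∑ g, f g ^ 2 ≤ 0 := by nlinarith
  have h7 : f 1 = 0 := by
    have := Finset.single_le_sum (f := fun g => f g ^ 2) (s := Finset.univ)
      (fun g _ => sq_nonneg _) (Finset.mem_univ (1 : Alt n))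
    have h8 : f 1 ^ 2 ≤ 0 := this.trans h6
    nlinarith [sq_nonneg (f 1), pow_eq_zero_iff (two_ne_zero) |>.mp (le_antisymm h8 (sq_nonneg _))]
  simp only [hf, H.one_mem, if_true] at h7
  have h8 : (Fintype.card H : ℝ) = Fintype.card (Alt n) := by
    have : a = 1 := by linarith
    rw [ha, div_eq_one_iff_eq hcard.ne'] at this
    exact this
  apply hne
  rw [← Subgroup.card_eq_iff_eq_top, Nat.card_eq_fintype_card, Nat.card_eq_fintype_card]
  exact_mod_cast h8

open FRLOW in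
/-- consequence for the Schreier graphs on tuples -/
theorem FRSCH (n m k : ℕ) (hm : m + 2 ≤ n) (hk : 1 ≤ k) (x : Fin k → Alt n) (c : ℝ)
    (h1 : ∀ j, 1 ≤ j → j ≤ m → ∀ f ∈ Lvl j n, c * ‖f‖ ^ 2 ≤ En (repA j n) x f) (r : ℕ)
    (hr : r ≤ m) :
    ∀ f : Tup r n → ℝ, ∑ a, f a = 0 →
      ∑ a, f a * ((∑ i, (f (mv (x i : Equiv.Perm (Fin n)) a) +
        f (mv (x i : Equiv.Perm (Fin n))⁻¹ a))) / (2 * k)) ≤
          (1 - c / (2 * k)) * ∑ a, f a ^ 2 := by
  classical
  intro f hs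
  have hrn : r + 2 ≤ n := by omega
  set κ : Tup r n := Fin.castLEEmb (by omega : r ≤ n) with hκ
  set N : ℝ := (Fintype.card (Alt n) : ℝ) / Fintype.card (Tup r n) with hN
  have hc1 : (0 : ℝ) < Fintype.card (Alt n) := by exact_mod_cast Fintype.card_pos
  have hc2 : (0 : ℝ) < Fintype.card (Tup r n) := by
    have : Nonempty (Tup r n) := ⟨κ⟩
    exact_mod_cast Fintype.card_pos
  have hNpos : 0 < N := div_pos hc1 hc2
  have hsum : ∀ Φ : Tup r n → ℝ,
      ∑ g : Alt n, Φ (mv (g : Equiv.Perm (Fin n))⁻¹ κ) = N * ∑ a, Φ a := by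
    intro Φ
    have e1 : ∀ g : Alt n, Φ (mv (g : Equiv.Perm (Fin n))⁻¹ κ) =
        ∑ a, if mv (g : Equiv.Perm (Fin n))⁻¹ κ = a then Φ a else 0 := by
      intro g; simp
    rw [Finset.sum_congr rfl fun g _ => e1 g, Finset.sum_comm, Finset.mul_sum]
    refine Finset.sum_congr rfl fun a _ => ?_
    rw [← Finset.sum_filter, Finset.sum_const, nsmul_eq_mul]
    congr 1
    rw [hN, eq_div_iff hc2.ne']
    have := TRANS_card hrn κ a
    rw [Fintype.card_subtype] at this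
    exact_mod_cast this
  set F : Alt n → ℝ := fun g => f (mv (g : Equiv.Perm (Fin n))⁻¹ κ) with hF
  have hlow : F ∈ lowLevel n m := by
    refine Submodule.subset_span ⟨Finset.univ.map κ, by simpa using hr, fun u g hu => ?_⟩
    simp only [hF]
    congr 1
    rw [Subgroup.coe_mul, mul_inv_rev, mv_mul]
    congr 1
    refine DFunLike.ext _ _ fun i => ?_
    rw [mv_apply]
    have := hu (κ i) (by simp)
    rw [Equiv.Perm.inv_eq_iff_eq, this]
  have hF0 : ∑ g, F g = 0 := by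
    rw [hF, hsum f, hs, mul_zero]
  have h3 := FRLOW n m k hk x c h1 F hlow hF0
  have h4 : ∀ g : Alt n, F g * walk x F g = (fun a => f a *
      ((∑ i, (f (mv (x i : Equiv.Perm (Fin n)) a) +
        f (mv (x i : Equiv.Perm (Fin n))⁻¹ a))) / (2 * k))) (mv (g : Equiv.Perm (Fin n))⁻¹ κ) := by
    intro g
    simp only [hF, walk]
    congr 2
    refine Finset.sum_congr rfl fun i _ => ?_
    rw [add_comm]
    simp only [Subgroup.coe_mul, mul_inv_rev, mv_mul, Subgroup.coe_inv, inv_inv]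
  have h5 : ∑ g, F g ^ 2 = N * ∑ a, f a ^ 2 := hsum (fun a => f a ^ 2)
  rw [Finset.sum_congr rfl fun g _ => h4 g, hsum (fun a => f a *
      ((∑ i, (f (mv (x i : Equiv.Perm (Fin n)) a) +
        f (mv (x i : Equiv.Perm (Fin n))⁻¹ a))) / (2 * k))), h5, mul_left_comm] at h3
  exact le_of_mul_le_mul_left h3 hNpos

end RC14
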