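import Pool.Agent.H20R2.RC.FRLOW
import Pool.Agent.H14R2.RC.Defs2

/-!
Project RC2, task FRV: from the levels `1 ≤ j ≤ m` to all mean zero complex functions on
`m`-tuples.
-/

namespace RC14
open scoped InnerProductSpace
open Finset

open FRLOW in
/-- from the levels `1 ≤ j ≤ m` to all mean zero functions on `m`-tuples (complex version of
`FRSCH`) -/
theorem FRV (n m k : ℕ) (hm : m + 2 ≤ n) (x : Fin k → Alt n) (c : ℝ)
    (h1 : ∀ j, 1 ≤ j → j ≤ m → ∀ f ∈ Lvl j n, c * ‖f‖ ^ 2 ≤ En (repA j n) x f) :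
    ∀ f : V m n, ∑ a, f a = 0 → c * ‖f‖ ^ 2 ≤ En (repA m n) x f := by
  classical
  intro f hs
  set κ : Tup m n := Fin.castLEEmb (by omega : m ≤ n) with hκ
  set N : ℝ := (Fintype.card (Alt n) : ℝ) / Fintype.card (Tup m n) with hN
  have hc1 : (0 : ℝ) < Fintype.card (Alt n) := by exact_mod_cast Fintype.card_pos
  have hc2 : (0 : ℝ) < Fintype.card (Tup m n) := by
    have : Nonempty (Tup m n) := ⟨κ⟩
    exact_mod_cast Fintype.card_pos
  have hNpos : 0 < N := div_pos hc1 hc2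
  have hfib : ∀ a : Tup m n, (((univ : Finset (Alt n)).filter
      (fun g : Alt n => mv (g : Equiv.Perm (Fin n))⁻¹ κ = a)).card : ℝ) = N := by
    intro a
    rw [hN, eq_div_iff hc2.ne']
    have := TRANS_card hm κ a
    rw [Fintype.card_subtype] at this
    exact_mod_cast this
  have hsum : ∀ Φ : Tup m n → ℝ,
      ∑ g : Alt n, Φ (mv (g : Equiv.Perm (Fin n))⁻¹ κ) = N * ∑ a, Φ a := by
    intro Φ
    have e1 : ∀ g : Alt n, Φ (mv (g : Equiv.Perm (Fin n))⁻¹ κ) =
        ∑ a, if mv (g : Equiv.Perm (Fin n))⁻¹ κ = a then Φ a else 0 := by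
      intro g; simp
    rw [Finset.sum_congr rfl fun g _ => e1 g, Finset.sum_comm, Finset.mul_sum]
    refine Finset.sum_congr rfl fun a _ => ?_
    rw [← Finset.sum_filter, Finset.sum_const, nsmul_eq_mul, hfib a]
  have hsumC : ∀ Φ : Tup m n → ℂ,
      ∑ g : Alt n, Φ (mv (g : Equiv.Perm (Fin n))⁻¹ κ) = (N : ℂ) * ∑ a, Φ a := by
    intro Φ
    have e1 : ∀ g : Alt n, Φ (mv (g : Equiv.Perm (Fin n))⁻¹ κ) =
        ∑ a, if mv (g : Equiv.Perm (Fin n))⁻¹ κ = a then Φ a else 0 := by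
      intro g; simp
    rw [Finset.sum_congr rfl fun g _ => e1 g, Finset.sum_comm, Finset.mul_sum]
    refine Finset.sum_congr rfl fun a _ => ?_
    rw [← Finset.sum_filter, Finset.sum_const, nsmul_eq_mul]
    congr 1
    rw [← hfib a]
    simp
  set F : FA n := WithLp.toLp 2 fun g => f (mv (g : Equiv.Perm (Fin n))⁻¹ κ) with hF
  have hFa : ∀ g : Alt n, F g = f (mv (g : Equiv.Perm (Fin n))⁻¹ κ) := fun g => rfl
  have hlow : F ∈ lowC n m := by
    refine Submodule.subset_span ⟨Finset.univ.map κ, by simp, fun u g hu => ?_⟩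
    have e0 : mv (u : Equiv.Perm (Fin n))⁻¹ κ = κ := by
      refine DFunLike.ext _ _ fun i => ?_
      rw [mv_apply]
      have := hu (κ i) (by simp)
      rw [Equiv.Perm.inv_eq_iff_eq, this]
    rw [hFa, hFa, Subgroup.coe_mul, mul_inv_rev, mv_mul, e0]
  have hF0 : ∑ g, F g = 0 := by
    simp only [hFa]
    rw [hsumC (fun a => f a), hs, mul_zero]
  have key := FR n m k x c (lowC n m ⊓ MZ n)
    (fun s F hF => ⟨lowC_inv m s F hF.1, MZ_inv s F hF.2⟩) (fun F hF => hF.2) h1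
    (fun F hF hH => by
      have : ⟪F, F⟫_ℂ = 0 := lowC_orth hH hF.1
      have hF0 : F = 0 := inner_self_eq_zero.mp this
      subst hF0
      simp [En]) F ⟨hlow, hF0⟩
  have e1 : ‖F‖ ^ 2 = N * ‖f‖ ^ 2 := by
    rw [EuclideanSpace.norm_sq_eq, EuclideanSpace.norm_sq_eq]
    simp only [hFa]
    exact hsum (fun a => ‖f a‖ ^ 2)
  have e2 : En (RR n) x F = N * En (repA m n) x f := by
    rw [En, En, Finset.mul_sum]
    refine Finset.sum_congr rfl fun i _ => ?_
    rw [EuclideanSpace.norm_sq_eq, EuclideanSpace.norm_sq_eq]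
    have := hsum (fun a => ‖(repA m n (x i) f - f) a‖ ^ 2)
    rw [← this]
    refine Finset.sum_congr rfl fun g _ => ?_
    rw [PiLp.sub_apply, PiLp.sub_apply, RR_apply, repA_apply, hFa, hFa, Subgroup.coe_mul,
      mul_inv_rev, mv_mul]
  rw [e1, e2, mul_left_comm] at key
  exact le_of_mul_le_mul_left key hNpos

end RC14
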