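import Pool.Agent.H14R2.RC.Defs

namespace RC14
open scoped InnerProductSpace
open Finset

namespace FR

section general
variable {E : Type*} [NormedAddCommGroup E] [InnerProductSpace ℂ E]

lemma sym_lower [FiniteDimensional ℂ E] (T : E →ₗ[ℂ] E) (hT : T.IsSymmetric) (c : ℝ)
    (h : ∀ (μ : ℝ) (v : E), v ≠ 0 → T v = (μ : ℂ) • v → c ≤ μ) (v : E) :
    c * ‖v‖ ^ 2 ≤ (⟪T v, v⟫_ℂ).re := by
  classical
  set b := hT.eigenvectorBasis (n := Module.finrank ℂ E) rfl with hb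
  have e1 : ∑ i, ‖⟪b i, v⟫_ℂ‖ ^ 2 = ‖v‖ ^ 2 := b.sum_sq_norm_inner_right v
  have e2 : ∑ i, ⟪T v, b i⟫_ℂ * ⟪b i, v⟫_ℂ = ⟪T v, v⟫_ℂ := b.sum_inner_mul_inner (T v) v
  have e3 : ∀ i, T (b i) = ((hT.eigenvalues rfl i : ℝ) : ℂ) • b i := fun i =>
    hT.apply_eigenvectorBasis rfl i
  have e4 : ∀ i, ⟪T v, b i⟫_ℂ * ⟪b i, v⟫_ℂ =
      ((hT.eigenvalues rfl i * ‖⟪b i, v⟫_ℂ‖ ^ 2 : ℝ) : ℂ) := fun i => by
    rw [hT v (b i), e3 i, inner_smul_right, mul_assoc,
      ← inner_conj_symm v (b i), Complex.conj_mul']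
    push_cast
    ring
  rw [← e2, ← e1, Complex.re_sum, Finset.mul_sum]
  refine Finset.sum_le_sum fun i _ => ?_
  rw [e4 i, Complex.ofReal_re]
  refine mul_le_mul_of_nonneg_right (h _ (b i) ?_ (e3 i)) (by positivity)
  exact b.orthonormal.ne_zero i

variable {G : Type*} [Group G]

lemma inner_rho (ρ : G →* (E ≃ₗᵢ[ℂ] E)) (g : G) (v w : E) :
    ⟪ρ g v, w⟫_ℂ = ⟪v, ρ g⁻¹ w⟫_ℂ := by
  have h := (ρ g).inner_map_map v (ρ g⁻¹ w)
  rw [← h]
  congr 1
  rw [map_inv]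
  exact ((ρ g).apply_symm_apply w).symm

/-- the Laplacian of the walk -/
noncomputable def Lap {k : ℕ} (ρ : G →* (E ≃ₗᵢ[ℂ] E)) (x : Fin k → G) : E →ₗ[ℂ] E :=
  ∑ i, ((2 : ℂ) • LinearMap.id - op ρ (x i) - op ρ (x i)⁻¹)

lemma Lap_apply {k : ℕ} (ρ : G →* (E ≃ₗᵢ[ℂ] E)) (x : Fin k → G) (v : E) :
    Lap ρ x v = ∑ i, ((2 : ℂ) • v - ρ (x i) v - ρ (x i)⁻¹ v) := by
  simp only [Lap, LinearMap.sum_apply, LinearMap.sub_apply, LinearMap.smul_apply,
    LinearMap.id_apply, op_apply]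

lemma Lap_sym {k : ℕ} (ρ : G →* (E ≃ₗᵢ[ℂ] E)) (x : Fin k → G) :
    (Lap ρ x).IsSymmetric := by
  intro v w
  rw [Lap_apply, Lap_apply, sum_inner, inner_sum]
  refine Finset.sum_congr rfl fun i _ => ?_
  simp only [inner_sub_left, inner_sub_right, inner_smul_left, inner_smul_right, inner_rho,
    inv_inv]
  rw [Complex.conj_ofNat]
  ring

lemma En_eq {k : ℕ} (ρ : G →* (E ≃ₗᵢ[ℂ] E)) (x : Fin k → G) (v : E) :
    En ρ x v = (⟪Lap ρ x v, v⟫_ℂ).re := by
  rw [Lap_apply, sum_inner, Complex.re_sum, En]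
  refine Finset.sum_congr rfl fun i _ => ?_
  have h1 := @norm_sub_sq ℂ E _ _ _ (ρ (x i) v) v
  rw [h1, (ρ (x i)).norm_map]
  simp only [inner_sub_left, inner_smul_left, inner_rho, inv_inv]
  have h2 : (⟪v, ρ (x i) v⟫_ℂ).re = (⟪v, ρ (x i)⁻¹ v⟫_ℂ).re := by
    rw [← inner_rho ρ (x i) v v, ← inner_conj_symm (ρ (x i) v) v, Complex.conj_re]
  have h3 : (⟪v, v⟫_ℂ).re = ‖v‖ ^ 2 := by
    rw [inner_self_eq_norm_sq_to_K]
    norm_cast
  simp only [Complex.sub_re, h2]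
  have h4 : RCLike.re (⟪v, ρ (x i)⁻¹ v⟫_ℂ) = (⟪v, ρ (x i)⁻¹ v⟫_ℂ).re := rfl
  have h5 : RCLike.re (⟪ρ (x i) v, v⟫_ℂ) = (⟪v, ρ (x i)⁻¹ v⟫_ℂ).re := by
    rw [inner_rho]; rfl
  have h6 : ((starRingEnd ℂ) 2 * ⟪v, v⟫_ℂ).re = 2 * ‖v‖ ^ 2 := by
    rw [Complex.conj_ofNat, Complex.mul_re, h3]
    simp
  rw [h6, h4]
  ring

end general

section marginals
variable {j n : ℕ}

lemma marg_apply (κ : Tup j n) (f : FA n) (a : Tup j n) :
    marg κ f a = ∑ g : Alt n, if mv (g : Equiv.Perm (Fin n))⁻¹ κ = a then f g else 0 := rfl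

lemma mv_inj (g : Equiv.Perm (Fin n)) {a b : Tup j n} : mv g a = mv g b ↔ a = b := by
  constructor
  · intro h
    have := congrArg (mv g⁻¹) h
    simpa [← mv_mul] using this
  · rintro rfl; rfl

lemma marg_RR (κ : Tup j n) (f : FA n) (s : Alt n) :
    marg κ (RR n s f) = repA j n s (marg κ f) := by
  ext a
  rw [repA_apply, marg_apply, marg_apply]
  refine Fintype.sum_equiv (Equiv.mulRight s) _ _ (fun g => ?_)
  simp only [Equiv.coe_mulRight, RR_apply]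
  have : mv ((g * s : Alt n) : Equiv.Perm (Fin n))⁻¹ κ = mv (s : Equiv.Perm (Fin n))⁻¹ a ↔
      mv (g : Equiv.Perm (Fin n))⁻¹ κ = a := by
    rw [Subgroup.coe_mul, mul_inv_rev, mv_mul, mv_inj]
  simp only [this]

lemma marg_add (κ : Tup j n) (f g : FA n) : marg κ (f + g) = marg κ f + marg κ g := by
  ext a
  simp only [marg_apply, PiLp.add_apply]
  rw [← Finset.sum_add_distrib]
  refine Finset.sum_congr rfl fun y _ => ?_
  split_ifs <;> simp

lemma marg_smul (κ : Tup j n) (c : ℂ) (f : FA n) : marg κ (c • f) = c • marg κ f := by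
  ext a
  simp only [marg_apply, PiLp.smul_apply, smul_eq_mul, Finset.mul_sum]
  refine Finset.sum_congr rfl fun y _ => ?_
  split_ifs <;> simp

/-- the marginal map as a linear map -/
noncomputable def margL (κ : Tup j n) : FA n →ₗ[ℂ] V j n where
  toFun := marg κ
  map_add' := marg_add κ
  map_smul' := marg_smul κ

lemma marg_Lap (κ : Tup j n) {k : ℕ} (x : Fin k → Alt n) (f : FA n) :
    marg κ (Lap (RR n) x f) = Lap (repA j n) x (marg κ f) := by
  change margL κ _ = Lap (repA j n) x (margL κ f)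
  rw [Lap_apply, Lap_apply, map_sum]
  refine Finset.sum_congr rfl fun i _ => ?_
  rw [map_sub, map_sub, map_smul]
  change _ - marg κ (RR n (x i) f) - marg κ (RR n (x i)⁻¹ f) = _
  rw [marg_RR, marg_RR]
  rfl

lemma ext0_marg (κ : Tup j n) (f : FA n) (ψ : Fin j → Fin n) :
    ext0 (marg κ f) ψ = ∑ g : Alt n,
      if (∀ i, (g : Equiv.Perm (Fin n))⁻¹ (κ i) = ψ i) then f g else 0 := by
  by_cases h : Function.Injective ψ
  · rw [show ext0 (marg κ f) ψ = marg κ f ⟨ψ, h⟩ by simp [ext0, h], marg_apply]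
    refine Finset.sum_congr rfl fun g _ => ?_
    congr 1
    rw [eq_iff_iff, DFunLike.ext_iff]
    rfl
  · rw [ext0_not _ h]
    symm
    refine Finset.sum_eq_zero fun g _ => ?_
    rw [if_neg]
    intro hg
    apply h
    intro a b hab
    have : (g : Equiv.Perm (Fin n))⁻¹ (κ a) = (g : Equiv.Perm (Fin n))⁻¹ (κ b) := by
      rw [hg, hg, hab]
    exact κ.injective ((g : Equiv.Perm (Fin n))⁻¹.injective this)

lemma sum_ext0 (κ : Tup (j + 1) n) (f : FA n) (ψ : Fin (j + 1) → Fin n) (l : Fin (j + 1)) :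
    ∑ y, ext0 (marg κ f) (Function.update ψ l y) =
      ext0 (marg (l.succAboveEmb.trans κ) f) (ψ ∘ l.succAbove) := by
  simp only [ext0_marg]
  rw [Finset.sum_comm]
  refine Finset.sum_congr rfl fun g _ => ?_
  rw [Finset.sum_eq_single ((g : Equiv.Perm (Fin n))⁻¹ (κ l))]
  · congr 1
    rw [eq_iff_iff]
    constructor
    · intro h i
      have := h (l.succAbove i)
      rw [Function.update_of_ne (Fin.succAbove_ne l i)] at this
      exact this
    · intro h i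
      by_cases hi : i = l
      · subst hi; simp
      · obtain ⟨i', rfl⟩ := Fin.exists_succAbove_eq hi
        rw [Function.update_of_ne (Fin.succAbove_ne l i')]
        exact h i'
  · intro y _ hy
    rw [if_neg]
    intro h
    apply hy
    have := h l
    rw [Function.update_self] at this
    exact this.symm
  · simp

/-- the first nonvanishing marginals have zero coordinate sums -/
lemma marg_mem_Lvl (κ : Tup j n) (f : FA n) (hj : 1 ≤ j)
    (h : ∀ κ' : Tup (j - 1) n, marg κ' f = 0) : marg κ f ∈ Lvl j n := by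
  obtain ⟨j, rfl⟩ : ∃ i, j = i + 1 := ⟨j - 1, by omega⟩
  intro ψ l
  rw [sum_ext0]
  have := h (l.succAboveEmb.trans κ)
  change ext0 (marg (l.succAboveEmb.trans κ) f) _ = 0
  rw [show marg (l.succAboveEmb.trans κ) f = 0 from this]
  simp [ext0]

lemma marg_zero (κ : Tup 0 n) (f : FA n) (h : ∑ g, f g = 0) : marg κ f = 0 := by
  ext a
  rw [marg_apply]
  have : ∀ g : Alt n, mv (g : Equiv.Perm (Fin n))⁻¹ κ = a := fun g => Subsingleton.elim _ _
  simp [this, h]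

end marginals

end FR

theorem HH_inv (m n : ℕ) : Inv (RR n) (HH m n) := by
  intro s f hf j hj κ
  rw [FR.marg_RR, hf j hj κ, map_zero]

/-- Frobenius reciprocity in the form used: an energy inequality on `Lvl j n`, `1 ≤ j ≤ m`, and
on the functions of `M` with vanishing marginals of order `≤ m` holds on all of `M`. -/
theorem FR (n m k : ℕ) (x : Fin k → Alt n) (c : ℝ) (M : Submodule ℂ (FA n))
    (hM : Inv (RR n) M) (h0 : ∀ f ∈ M, ∑ g, f g = 0)
    (h1 : ∀ j, 1 ≤ j → j ≤ m → ∀ f ∈ Lvl j n, c * ‖f‖ ^ 2 ≤ En (repA j n) x f)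
    (h2 : ∀ f ∈ M, f ∈ HH m n → c * ‖f‖ ^ 2 ≤ En (RR n) x f) :
    ∀ f ∈ M, c * ‖f‖ ^ 2 ≤ En (RR n) x f := by
  classical
  have hL : ∀ v ∈ M, FR.Lap (RR n) x v ∈ M := by
    intro v hv
    rw [FR.Lap_apply]
    exact M.sum_mem fun i _ => M.sub_mem (M.sub_mem (M.smul_mem _ hv) (hM _ _ hv)) (hM _ _ hv)
  have hsym := (FR.Lap_sym (RR n) x).restrict_invariant hL
  intro f hf
  have key := FR.sym_lower _ hsym c ?_ ⟨f, hf⟩
  · rw [FR.En_eq]
    exact key
  rintro μ ⟨v, hv⟩ hv0 hμ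
  have hv0' : v ≠ 0 := fun h => hv0 (by simpa using h)
  have hμ' : FR.Lap (RR n) x v = (μ : ℂ) • v := congrArg Subtype.val hμ
  have hEn : ∀ {W : Type} [NormedAddCommGroup W] [InnerProductSpace ℂ W]
      (ρ : Alt n →* (W ≃ₗᵢ[ℂ] W)) (w : W), FR.Lap ρ x w = (μ : ℂ) • w →
      En ρ x w = μ * ‖w‖ ^ 2 := by
    intro W _ _ ρ w hw
    rw [FR.En_eq, hw, inner_smul_left, inner_self_eq_norm_sq_to_K, Complex.conj_ofReal,
      Complex.re_ofReal_mul]
    congr 1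
    exact_mod_cast rfl
  have fin : ∀ {N : ℝ}, 0 < N → c * N ≤ μ * N → c ≤ μ := fun hN h => le_of_mul_le_mul_right h hN
  by_cases hH : v ∈ HH m n
  · have := h2 v hv hH
    rw [hEn (RR n) v hμ'] at this
    exact fin (by positivity) this
  · have hex : ∃ j, j ≤ m ∧ ∃ κ : Tup j n, marg κ v ≠ 0 := by
      by_contra hcon
      push Not at hcon
      exact hH fun j hj κ => hcon j hj κ
    have hex' : ∃ j, (j ≤ m ∧ ∃ κ : Tup j n, marg κ v ≠ 0) ∧
        ∀ i < j, ¬ (i ≤ m ∧ ∃ κ : Tup i n, marg κ v ≠ 0) :=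
      ⟨Nat.find hex, Nat.find_spec hex, fun i hi => Nat.find_min hex hi⟩
    obtain ⟨j, ⟨hjm, κ, hκ⟩, hjmin⟩ := hex'
    have hj1 : 1 ≤ j := by
      rcases Nat.eq_zero_or_pos j with rfl | h
      · exact absurd (FR.marg_zero κ v (h0 v hv)) hκ
      · exact h
    have hmin : ∀ κ' : Tup (j - 1) n, marg κ' v = 0 := by
      intro κ'
      by_contra hcon
      exact hjmin (j - 1) (by omega) ⟨by omega, κ', hcon⟩
    have hmem := FR.marg_mem_Lvl κ v hj1 hmin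
    have h3 := h1 j hj1 hjm _ hmem
    have h4 : FR.Lap (repA j n) x (marg κ v) = (μ : ℂ) • marg κ v := by
      rw [← FR.marg_Lap, hμ', FR.marg_smul]
    rw [hEn _ _ h4] at h3
    have hpos : 0 < ‖marg κ v‖ := norm_pos_iff.mpr hκ
    exact fin (by positivity) h3

end RC14
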